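import Pool.Agent.H120Z.WP.Main

namespace Pool.Agent.Results.MP_0946c8_al.ALinAvg

/-- For every finitely generated subgroup `G` of `GL_d(ℚ)` and every finite generating family,
some finite multi-stack machine decides whether an input word is trivial in `G`, with total
halting time over all words of length `n` at most `C (n + 1) (2 m) ^ n`. -/
theorem result :
    ∀ (d : ℕ) (G : Subgroup (GL (Fin d) ℚ)) (m : ℕ) (f : Fin m → G),
      Subgroup.closure (Set.range f) = ⊤ →
        ∃ (K : Type) (_ : DecidableEq K) (_ : Fintype K)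
          (Γ : K → Type) (_ : ∀ k, Fintype (Γ k))
          (Λ : Type) (_ : Inhabited Λ) (_ : Fintype Λ)
          (σ : Type) (_ : Inhabited σ) (_ : Fintype σ)
          (M : Λ → Turing.TM2.Stmt Γ Λ σ) (k0 : K) (enc : Fin m × Bool → Γ k0)
          (acc : σ → Bool) (T : List (Fin m × Bool) → ℕ) (C : ℕ),
          Function.Injective enc ∧
          (∀ w : List (Fin m × Bool),
            (∃ c : Turing.TM2.Cfg Γ Λ σ,
              (fun d : Option (Turing.TM2.Cfg Γ Λ σ) => d.bind (Turing.TM2.step M))^[T w]
                  (some (Turing.TM2.init k0 (w.map enc) : Turing.TM2.Cfg Γ Λ σ)) = some c ∧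
                c.l = none ∧
                (acc c.var = true ↔ FreeGroup.lift f (FreeGroup.mk w) = 1)) ∧
            (∀ t < T w, ∀ c : Turing.TM2.Cfg Γ Λ σ,
              (fun d : Option (Turing.TM2.Cfg Γ Λ σ) => d.bind (Turing.TM2.step M))^[t]
                  (some (Turing.TM2.init k0 (w.map enc) : Turing.TM2.Cfg Γ Λ σ)) = some c →
                c.l ≠ none)) ∧
          (∀ n : ℕ, ∑ v : Fin n → Fin m × Bool, T (List.ofFn v) ≤ C * (n + 1) * (2 * m) ^ n) := by
  intro d G m f _
  have e : ∀ z, FreeGroup.lift f z = 1 ↔ FreeGroup.lift (fun i => (f i : GL (Fin d) ℚ)) z = 1 := by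
    intro z
    have : FreeGroup.lift (fun i => (f i : GL (Fin d) ℚ)) = G.subtype.comp (FreeGroup.lift f) := by
      ext1 i
      simp
    rw [this]
    simp
  simp only [e]
  exact Pool.Agent.H120Z.WP.main _

end Pool.Agent.Results.MP_0946c8_al.ALinAvg
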